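import Mathlib

/-!
# Transpositions in the wreath product `S_n ≀ H`
-/

set_option autoImplicit false

namespace Run7.h501.WL

open Equiv

/-- the index: `n` minus the number of cycles, fixed points included -/
def ind {n : ℕ} (g : Perm (Fin n)) : ℕ := g.cycleType.sum - Multiset.card g.cycleType

theorem two_mul_card_le {s : Multiset ℕ} (h : ∀ a ∈ s, 2 ≤ a) : 2 * Multiset.card s ≤ s.sum := by
  have := Multiset.card_nsmul_le_sum (s := s) h
  rwa [smul_eq_mul, mul_comm] at this

theorem one_le_ind {n : ℕ} {g : Perm (Fin n)} (hg : g ≠ 1) : 1 ≤ ind g := by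
  have h1 := two_mul_card_le (s := g.cycleType) fun a ha => Perm.two_le_of_mem_cycleType ha
  have h2 : Multiset.card g.cycleType ≠ 0 := by
    rw [Ne, Perm.card_cycleType_eq_zero]
    exact hg
  unfold ind
  omega

theorem ind_eq_one {n : ℕ} {g : Perm (Fin n)} : ind g = 1 ↔ g.IsSwap := by
  rw [Perm.isSwap_iff_cycleType]
  constructor
  · intro h
    have h1 := two_mul_card_le (s := g.cycleType) fun a ha => Perm.two_le_of_mem_cycleType ha
    have h2 : Multiset.card g.cycleType = 1 := by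
      have h3 : Multiset.card g.cycleType ≠ 0 := by
        intro h0
        rw [Multiset.card_eq_zero] at h0
        unfold ind at h
        rw [h0] at h
        simp at h
      unfold ind at h
      omega
    obtain ⟨a, ha⟩ := Multiset.card_eq_one.1 h2
    unfold ind at h
    rw [ha] at h ⊢
    simp only [Multiset.sum_singleton, Multiset.card_singleton] at h
    have : a = 2 := by omega
    rw [this]
  · intro h
    unfold ind
    rw [h]
    simp

section

variable {m n d : ℕ} {H : Subgroup (Perm (Fin m))} {G : Subgroup (Perm (Fin d))}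
  {f : Fin d ≃ Fin m × Fin n}

/-- a transposition in `S_n ≀ H` exchanges two points of a block -/
theorem same_block (h2 : 2 ≤ n)
    (hf : ∀ π : Perm (Fin d), π ∈ G ↔ ∃ h ∈ H, ∀ i, (f (π i)).1 = h (f i).1) {i j : Fin d}
    (hg : swap i j ∈ G) : (f i).1 = (f j).1 := by
  obtain ⟨h, -, hh⟩ := (hf _).1 hg
  by_contra hne
  obtain ⟨k, hk⟩ : ∃ k : Fin n, k ≠ (f i).2 := by
    haveI : Nontrivial (Fin n) := Fin.nontrivial_iff_two_le.2 h2
    exact exists_ne _
  let z : Fin d := f.symm ((f i).1, k)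
  have hz1 : (f z).1 = (f i).1 := by simp [z]
  have hzi : z ≠ i := by
    intro h
    apply hk
    have : (f z).2 = k := by simp [z]
    rw [← this, h]
  have hzj : z ≠ j := by
    intro h
    apply hne
    rw [← h, hz1]
  have h3 := hh z
  rw [swap_apply_of_ne_of_ne hzi hzj, hz1] at h3
  have h4 := hh i
  rw [swap_apply_left, ← h3] at h4
  exact hne h4.symm

/-- a permutation with two given values -/
theorem exists_perm_two {n : ℕ} {a b a' b' : Fin n} (h : a ≠ b) (h' : a' ≠ b') :
    ∃ s : Perm (Fin n), s a = a' ∧ s b = b' := by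
  let s₁ : Perm (Fin n) := swap a a'
  have h1 : s₁ a = a' := swap_apply_left _ _
  have h2 : s₁ b ≠ a' := fun e => h (s₁.injective (h1.trans e.symm))
  refine ⟨swap (s₁ b) b' * s₁, ?_, ?_⟩
  · rw [Perm.mul_apply, h1, swap_apply_of_ne_of_ne h2.symm h']
  · rw [Perm.mul_apply, swap_apply_left]

/-- all transpositions in `S_n ≀ H` are conjugate -/
theorem conj_swaps (h2 : 2 ≤ n) (htr : ∀ i j : Fin m, ∃ h ∈ H, h i = j)
    (hf : ∀ π : Perm (Fin d), π ∈ G ↔ ∃ h ∈ H, ∀ i, (f (π i)).1 = h (f i).1)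
    {i j i' j' : Fin d} (hij : i ≠ j) (hij' : i' ≠ j') (hg : swap i j ∈ G)
    (hg' : swap i' j' ∈ G) : ∃ x ∈ G, swap i' j' = x * swap i j * x⁻¹ := by
  have h1 := same_block h2 hf hg
  have h4 := same_block h2 hf hg'
  have h3 : (f i).2 ≠ (f j).2 := fun e => hij (f.injective (Prod.ext h1 e))
  have h5 : (f i').2 ≠ (f j').2 := fun e => hij' (f.injective (Prod.ext h4 e))
  obtain ⟨h, hh, hhi⟩ := htr (f i).1 (f i').1
  obtain ⟨s, hs1, hs2⟩ := exists_perm_two h3 h5
  let t : Perm (Fin m × Fin n) := h.prodCongr s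
  let x : Perm (Fin d) := f.trans (t.trans f.symm)
  have hx : ∀ a, x a = f.symm (h (f a).1, s (f a).2) := fun a => rfl
  have hxi : x i = i' := by
    rw [hx, Equiv.symm_apply_eq]
    exact Prod.ext hhi hs1
  have hxj : x j = j' := by
    rw [hx, Equiv.symm_apply_eq]
    refine Prod.ext ?_ hs2
    show h (f j).1 = (f j').1
    rw [← h1, ← h4]
    exact hhi
  refine ⟨x, (hf x).2 ⟨h, hh, fun a => by rw [hx]; simp⟩, ?_⟩
  calc swap i' j' = swap (x i) (x j) := by rw [hxi, hxj]
    _ = x * swap i j * x⁻¹ := Equiv.swap_apply_apply x i j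

/-- there is a transposition in `S_n ≀ H` -/
theorem exists_swap (h2 : 2 ≤ n) (i0 : Fin m)
    (hf : ∀ π : Perm (Fin d), π ∈ G ↔ ∃ h ∈ H, ∀ i, (f (π i)).1 = h (f i).1) :
    ∃ i j : Fin d, i ≠ j ∧ swap i j ∈ G := by
  let a : Fin n := ⟨0, by omega⟩
  let b : Fin n := ⟨1, by omega⟩
  have hab : a ≠ b := by simp [a, b]
  refine ⟨f.symm (i0, a), f.symm (i0, b), fun h => ?_, (hf _).2 ⟨1, H.one_mem, fun x => ?_⟩⟩
  · have := f.symm.injective h
    exact hab (congrArg Prod.snd this)
  · by_cases h1 : x = f.symm (i0, a)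
    · rw [h1, swap_apply_left]; simp
    · by_cases h2 : x = f.symm (i0, b)
      · rw [h2, swap_apply_right]; simp
      · rw [swap_apply_of_ne_of_ne h1 h2]; simp

end

end Run7.h501.WL
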