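import Pool.Agent.N783.CF.WRG

/-!
# Transitive permutation groups as Galois groups of non-normal extensions
-/

set_option autoImplicit false
set_option linter.style.haveILetI false

namespace Run7.h501.WL

open Pool.Agent.N783.CF (HasGroup exists_act)

/-- A transitive permutation group which is isomorphic to the Galois group of a Galois extension of `K` is
the Galois group, as a permutation group, of an extension of `K`. -/
theorem exists_hasGroup (K : Type) [Field K] [NumberField K] {m : ℕ}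
    (H : Subgroup (Equiv.Perm (Fin m))) (i0 : Fin m)
    (htr : ∀ i j : Fin m, ∃ h ∈ H, h i = j)
    (F : Type) [Field F] [Algebra K F] [FiniteDimensional K F] [IsGalois K F]
    (γ : (F ≃ₐ[K] F) ≃* H) :
    ∃ M : IntermediateField K (AlgebraicClosure K), FiniteDimensional K M ∧ HasGroup M H := by
  classical
  let Ω := AlgebraicClosure K
  let φ₀ : F →ₐ[K] Ω := IsAlgClosed.lift
  letI : Algebra F Ω := φ₀.toRingHom.toAlgebra
  haveI : IsScalarTower K F Ω := IsScalarTower.of_algebraMap_eq fun x => (φ₀.commutes x).symm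
  haveI : Normal K Ω := inferInstance
  let res : (Ω ≃ₐ[K] Ω) →* (F ≃ₐ[K] F) := AlgEquiv.restrictNormalHom F
  have hres : ∀ (σ : Ω ≃ₐ[K] Ω) (x : F), φ₀ (res σ x) = σ (φ₀ x) := fun σ x =>
    AlgEquiv.restrictNormal_commutes σ F x
  have hsurj : Function.Surjective res := AlgEquiv.restrictNormalHom_surjective Ω
  let ρ : (Ω ≃ₐ[K] Ω) →* H := γ.toMonoidHom.comp res
  have hρ : Function.Surjective ρ := γ.surjective.comp hsurj
  let U : Subgroup (F ≃ₐ[K] F) :=
    { carrier := {g | (γ g : Equiv.Perm (Fin m)) i0 = i0}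
      one_mem' := by simp
      mul_mem' := by
        intro a b ha hb
        simp only [Set.mem_ofPred_eq, map_mul, Subgroup.coe_mul, Equiv.Perm.mul_apply] at ha hb ⊢
        rw [hb, ha]
      inv_mem' := by
        intro a ha
        simp only [Set.mem_ofPred_eq, map_inv, Subgroup.coe_inv] at ha ⊢
        rw [Equiv.Perm.inv_eq_iff_eq]
        exact ha.symm }
  let MF : IntermediateField K F := IntermediateField.fixedField U
  let M : IntermediateField K Ω := MF.map φ₀
  haveI hfd : FiniteDimensional K M := by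
    haveI : FiniteDimensional K MF := inferInstance
    exact LinearEquiv.finiteDimensional (MF.equivMap φ₀).toLinearEquiv
  have hfix : MF.fixingSubgroup = U := IntermediateField.fixingSubgroup_fixedField U
  have key : ∀ σ σ' : Ω ≃ₐ[K] Ω, σ.toAlgHom.comp M.val = σ'.toAlgHom.comp M.val ↔
      (ρ σ : Equiv.Perm (Fin m)) i0 = (ρ σ' : Equiv.Perm (Fin m)) i0 := by
    intro σ σ'
    have h1 : (ρ σ : Equiv.Perm (Fin m)) i0 = (ρ σ' : Equiv.Perm (Fin m)) i0 ↔
        res (σ'⁻¹ * σ) ∈ U := by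
      show _ ↔ (γ (res (σ'⁻¹ * σ)) : Equiv.Perm (Fin m)) i0 = i0
      rw [map_mul, map_mul, map_inv, map_inv, Subgroup.coe_mul, Subgroup.coe_inv,
        Equiv.Perm.mul_apply, Equiv.Perm.inv_eq_iff_eq]
      rfl
    rw [h1, ← hfix, IntermediateField.mem_fixingSubgroup_iff]
    constructor
    · intro h x hx
      have h2 := DFunLike.congr_fun h ⟨φ₀ x, ⟨x, hx, rfl⟩⟩
      have h3 : σ (φ₀ x) = σ' (φ₀ x) := h2
      apply φ₀.injective
      refine (hres _ _).trans ?_
      show (σ'⁻¹ : Ω ≃ₐ[K] Ω) (σ (φ₀ x)) = φ₀ x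
      rw [h3]
      exact σ'.symm_apply_apply _
    · intro h
      ext ⟨y, x, hx, rfl⟩
      show σ (φ₀ x) = σ' (φ₀ x)
      have h2 := h x hx
      have h3 : φ₀ (res (σ'⁻¹ * σ) x) = φ₀ x := by rw [h2]
      rw [hres] at h3
      have h4 : σ' ((σ'⁻¹ : Ω ≃ₐ[K] Ω) (σ (φ₀ x))) = σ' (φ₀ x) := congrArg σ' h3
      rw [← h4]
      exact (σ'.apply_symm_apply _).symm
  have hext : ∀ φ : M →ₐ[K] Ω, ∃ σ : Ω ≃ₐ[K] Ω, σ.toAlgHom.comp M.val = φ := fun φ =>
    exists_act M M.val φ
  choose s hs using hext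
  let e : (M →ₐ[K] Ω) → Fin m := fun φ => (ρ (s φ) : Equiv.Perm (Fin m)) i0
  have he : ∀ σ : Ω ≃ₐ[K] Ω, e (σ.toAlgHom.comp M.val) = (ρ σ : Equiv.Perm (Fin m)) i0 := by
    intro σ
    exact (key _ _).1 (hs _)
  have hinj : Function.Injective e := by
    intro φ φ' h
    rw [← hs φ, ← hs φ']
    exact (key _ _).2 h
  have hsurj' : Function.Surjective e := by
    intro j
    obtain ⟨h, hh, hj⟩ := htr i0 j
    obtain ⟨σ, hσ⟩ := hρ ⟨h, hh⟩
    exact ⟨σ.toAlgHom.comp M.val, by rw [he, hσ]; exact hj⟩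
  have hact : ∀ (σ : Ω ≃ₐ[K] Ω) (φ : M →ₐ[K] Ω),
      e (σ.toAlgHom.comp φ) = (ρ σ : Equiv.Perm (Fin m)) (e φ) := by
    intro σ φ
    have h1 : σ.toAlgHom.comp φ = (σ * s φ).toAlgHom.comp M.val := by
      conv_lhs => rw [← hs φ]
      rfl
    rw [h1, he, map_mul, Subgroup.coe_mul, Equiv.Perm.mul_apply]
  refine ⟨M, hfd, Equiv.ofBijective e ⟨hinj, hsurj'⟩, fun τ => ⟨fun hτ => ?_, ?_⟩⟩
  · obtain ⟨σ, hσ⟩ := hρ ⟨τ, hτ⟩
    refine ⟨σ, fun φ => ?_⟩
    show e (σ.toAlgHom.comp φ) = τ (e φ)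
    rw [hact, hσ]
  · rintro ⟨σ, hσ⟩
    have h1 : (ρ σ : Equiv.Perm (Fin m)) = τ := by
      ext j
      obtain ⟨φ, rfl⟩ := hsurj' j
      have h2 : e (σ.toAlgHom.comp φ) = τ (e φ) := hσ φ
      rw [hact] at h2
      rw [h2]
    rw [← h1]
    exact (ρ σ).2

/-- The number of subfields is at most the degree times the number of isomorphism classes. -/
theorem ncard_le_quot (K : Type) [Field K] [NumberField K]
    (S : Set (IntermediateField K (AlgebraicClosure K))) (hS : S.Finite) (d : ℕ) (hd : 0 < d)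
    (hdeg : ∀ L ∈ S, Module.finrank K L = d) :
    S.ncard ≤ Nat.card (Quot fun L L' : S => Nonempty (L.1 ≃ₐ[K] L'.1)) * d := by
  classical
  haveI : Finite S := hS
  haveI : Fintype S := Fintype.ofFinite S
  let r : S → S → Prop := fun L L' => Nonempty (L.1 ≃ₐ[K] L'.1)
  have hr : Equivalence r := ⟨fun _ => ⟨AlgEquiv.refl⟩, fun ⟨f⟩ => ⟨f.symm⟩,
    fun ⟨f⟩ ⟨g⟩ => ⟨f.trans g⟩⟩
  haveI : Fintype (Quot r) := Fintype.ofFinite _
  have hfib : ∀ c : Quot r, (Finset.univ.filter fun L : S => Quot.mk r L = c).card ≤ d := by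
    intro c
    induction c using Quot.inductionOn with
    | _ L₀ =>
      haveI : FiniteDimensional K L₀.1 :=
        Module.finite_of_finrank_pos (by rw [hdeg _ L₀.2]; exact hd)
      have h1 : Fintype.card (L₀.1 →ₐ[K] AlgebraicClosure K) = d := by
        rw [AlgHom.card, hdeg _ L₀.2]
      rw [← h1, ← Finset.card_univ]
      have hex : ∀ L : S, Quot.mk r L = Quot.mk r L₀ → ∃ f : L₀.1 →ₐ[K] AlgebraicClosure K,
          f.fieldRange = L.1 := by
        intro L hL
        obtain ⟨f⟩ := (Quot.eq.1 hL : Relation.EqvGen r L L₀) |> fun h =>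
          (hr.eqvGen_iff.1 h)
        refine ⟨L.1.val.comp f.symm.toAlgHom, ?_⟩
        ext x
        constructor
        · rintro ⟨y, rfl⟩
          exact (f.symm y).2
        · intro hx
          exact ⟨f ⟨x, hx⟩, by simp⟩
      let g : S → (L₀.1 →ₐ[K] AlgebraicClosure K) := fun L =>
        if h : Quot.mk r L = Quot.mk r L₀ then (hex L h).choose else L₀.1.val
      refine Finset.card_le_card_of_injOn g (fun _ _ => Finset.mem_coe.2 (Finset.mem_univ _)) ?_
      intro L hL L' hL' h
      simp only [Finset.coe_filter, Finset.mem_univ, true_and, Set.mem_ofPred_eq] at hL hL'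
      have e1 : (g L).fieldRange = L.1 := by
        simp only [g, dif_pos hL]
        exact (hex L hL).choose_spec
      have e2 : (g L').fieldRange = L'.1 := by
        simp only [g, dif_pos hL']
        exact (hex L' hL').choose_spec
      apply Subtype.ext
      rw [← e1, ← e2, h]
  have h1 : Fintype.card S = ∑ c : Quot r, (Finset.univ.filter fun L : S => Quot.mk r L = c).card := by
    rw [← Finset.card_univ]
    exact Finset.card_eq_sum_card_fiberwise fun _ _ => Finset.mem_coe.2 (Finset.mem_univ _)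
  have h2 : S.ncard = Fintype.card S := by
    rw [← Nat.card_coe_set_eq, Nat.card_eq_fintype_card]
  rw [h2, h1, Nat.card_eq_fintype_card]
  calc _ ≤ ∑ _ : Quot r, d := Finset.sum_le_sum fun c _ => hfib c
    _ = _ := by rw [Finset.sum_const, Finset.card_univ, smul_eq_mul]

end Run7.h501.WL
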