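import Pool.Agent.Run7.h202.MLB.Real
import Pool.Agent.Run7.h501.WL.Real
import Pool.Agent.Run7.h501.WL.Perm
import Pool.Agent.N783.CF.WRFinal

/-!
# Lower bounds for `S_n ≀ H`, counted up to isomorphism and by the relative discriminant
-/

set_option autoImplicit false

namespace Run7.h501.WL

open Pool.Agent.N783.CF (HasGroup Wreath)

/-- the `G`-extensions of `K` of degree `d` with relative discriminant of norm at most `B` -/
def Cnt (K : Type) [Field K] [NumberField K] (d : ℕ) (G : Subgroup (Equiv.Perm (Fin d)))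
    (B : ℝ) : Set (IntermediateField K (AlgebraicClosure K)) :=
  {L | Module.finrank K L = d ∧
    (∃ e : (L →ₐ[K] AlgebraicClosure K) ≃ Fin d, ∀ π : Equiv.Perm (Fin d),
      π ∈ G ↔ ∃ σ : AlgebraicClosure K ≃ₐ[K] AlgebraicClosure K,
        ∀ φ : L →ₐ[K] AlgebraicClosure K, e (σ.toAlgHom.comp φ) = π (e φ)) ∧
    ∃ h : NumberField L,
      ((|@NumberField.discr L _ h| : ℤ) : ℝ) ≤ B * ((|NumberField.discr K| : ℤ) : ℝ) ^ d}

theorem lower (K : Type) [Field K] [NumberField K] {m n d : ℕ} (H : Subgroup (Equiv.Perm (Fin m)))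
    (M : IntermediateField K (AlgebraicClosure K)) (hMf : FiniteDimensional K M)
    (hMH : HasGroup M H) (hn3 : 3 ≤ n) (hodd : Odd n) (G : Subgroup (Equiv.Perm (Fin d)))
    (f : Fin d ≃ Fin m × Fin n)
    (hf : ∀ π : Equiv.Perm (Fin d), π ∈ G ↔ ∃ h ∈ H, ∀ i, (f (π i)).1 = h (f i).1) :
    ∃ c : ℝ, 0 < c ∧ ∀ᶠ B : ℝ in Filter.atTop, (Cnt K d G B).Finite ∧
      c * B ^ ((1 : ℝ) / 2 + 1 / (n : ℝ)) ≤
      (Nat.card (Quot fun L L' : Cnt K d G B => Nonempty (L.1 ≃ₐ[K] L'.1)) : ℝ) := by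
  classical
  obtain ⟨g, rfl⟩ := hodd
  have hMN : NumberField M := NumberField.of_module_finite K M
  have hm : Module.finrank K M = m := by
    obtain ⟨e, -⟩ := hMH
    have h1 : Fintype.card (M →ₐ[K] AlgebraicClosure K) = Module.finrank K M := AlgHom.card K M _
    have h2 := Fintype.card_congr e
    rw [Fintype.card_fin] at h2
    exact h1.symm.trans h2
  have hm0 : 0 < m := by
    rw [← hm]
    exact Module.finrank_pos
  have hd : d = m * (2 * g + 1) := by
    have h := Fintype.card_congr f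
    rw [Fintype.card_fin, Fintype.card_prod, Fintype.card_fin, Fintype.card_fin] at h
    exact h
  have hd0 : 0 < d := by
    rw [hd]
    positivity
  obtain ⟨c, hc, X₀, h⟩ := Pool.Agent.N783.CF.wreathFields g K M (by omega)
  have hD : (0 : ℝ) < ((|NumberField.discr K| : ℤ) : ℝ) ^ d := by
    have h1 : (0 : ℤ) < |NumberField.discr K| := abs_pos.2 (NumberField.discr_ne_zero K)
    have : (0 : ℝ) < ((|NumberField.discr K| : ℤ) : ℝ) := by exact_mod_cast h1
    positivity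
  set D : ℝ := ((|NumberField.discr K| : ℤ) : ℝ) ^ d with hDdef
  set e : ℝ := (1 : ℝ) / 2 + 1 / ((2 * g + 1 : ℕ) : ℝ) with he
  refine ⟨c * D ^ e / d, by positivity, ?_⟩
  filter_upwards [Filter.eventually_ge_atTop (X₀ / D), Filter.eventually_ge_atTop (0 : ℝ)]
    with B hB hB0
  have hX : X₀ ≤ B * D := by rwa [div_le_iff₀ hD] at hB
  obtain ⟨hfin, T, hT, hTW, hle⟩ := h (B * D) hX
  rw [hm] at hfin hT
  have hfin' : (Cnt K d G B).Finite := hfin.subset fun L hL => by
    rw [← hd]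
    exact ⟨hL.1, hL.2.2⟩
  refine ⟨hfin', ?_⟩
  have hsub : T ⊆ Cnt K d G B := by
    intro L hL
    obtain ⟨h1, h2, h3⟩ := hT hL
    refine ⟨by rw [h1, hd], ?_, ⟨h2, h3⟩⟩
    obtain ⟨e', he'⟩ := Pool.Agent.N783.CF.hasGroup_wreath M L H hMH (by rw [h1, hm]) (hTW L hL)
    refine ⟨e'.trans f.symm, fun π => ?_⟩
    rw [hf π]
    have h4 : (∃ h ∈ H, ∀ i, (f (π i)).1 = h (f i).1) ↔
        ((f.symm.trans π).trans f : Equiv.Perm (Fin m × Fin (2 * g + 1))) ∈
          Wreath (2 * g + 1) H := by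
      constructor
      · rintro ⟨k, hk, h5⟩
        refine ⟨k, hk, fun x => ?_⟩
        have := h5 (f.symm x)
        rwa [Equiv.apply_symm_apply] at this
      · rintro ⟨k, hk, h5⟩
        refine ⟨k, hk, fun i => ?_⟩
        have := h5 (f i)
        simpa using this
    rw [h4, he']
    constructor
    · rintro ⟨σ, hσ⟩
      refine ⟨σ, fun φ => ?_⟩
      show f.symm (e' (σ.toAlgHom.comp φ)) = π (f.symm (e' φ))
      rw [hσ φ]
      simp
    · rintro ⟨σ, hσ⟩
      refine ⟨σ, fun φ => ?_⟩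
      have h6 : f.symm (e' (σ.toAlgHom.comp φ)) = π (f.symm (e' φ)) := hσ φ
      rw [Equiv.symm_apply_eq] at h6
      rw [h6]
      rfl
  have h7 := ncard_le_quot K (Cnt K d G B) hfin' d hd0 fun L hL => hL.1
  have h8 : T.ncard ≤ (Cnt K d G B).ncard := Set.ncard_le_ncard hsub hfin'
  have h9 : (T.ncard : ℝ) ≤
      (Nat.card (Quot fun L L' : Cnt K d G B => Nonempty (L.1 ≃ₐ[K] L'.1)) : ℝ) * d := by
    exact_mod_cast h8.trans h7
  have h10 : c * (B * D) ^ e = c * D ^ e * B ^ e := by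
    rw [Real.mul_rpow hB0 hD.le]
    ring
  have hdR : (0 : ℝ) < d := by exact_mod_cast hd0
  have h11 : c * D ^ e * B ^ e ≤
      (Nat.card (Quot fun L L' : Cnt K d G B => Nonempty (L.1 ≃ₐ[K] L'.1)) : ℝ) * d := by
    rw [← h10]
    exact hle.trans h9
  rw [div_mul_eq_mul_div, div_le_iff₀ hdR]
  exact h11

end Run7.h501.WL
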